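import Pool.Agent.H953Z.St

set_option autoImplicit false
open MeasureTheory Filter Set
open Pool.Agent.H953Z

namespace Pool.Agent.H529Z.Mk

theorem meas_shift : Measurable (shift : (ℤ → ℕ) → ℤ → ℕ) :=
  measurable_pi_lambda _ fun n => measurable_pi_apply (n + 1)

theorem meas_path (E : Set (ℕ × ℕ)) : MeasurableSet (PathSet E) := by
  have h : PathSet E = ⋂ n : ℤ, (fun x : ℤ → ℕ => (x n, x (n + 1))) ⁻¹' E := by
    ext x
    simp [PathSet]
  rw [h]
  refine MeasurableSet.iInter fun n => ?_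
  exact ((measurable_pi_apply n).prodMk (measurable_pi_apply (n + 1)))
    (Set.to_countable E).measurableSet

theorem meas_word {X A : Type} [MeasurableSpace X] {T : X → X} (hT : Measurable T) {p : X → A}
    (hp : MeasF p) (n : ℕ) (w : Fin n → A) :
    MeasurableSet {z | ∀ i : Fin n, p (T^[(i : ℕ)] z) = w i} := by
  have h : {z | ∀ i : Fin n, p (T^[(i : ℕ)] z) = w i} =
      ⋂ i : Fin n, T^[(i : ℕ)] ⁻¹' (p ⁻¹' {w i}) := by
    ext z
    simp
  rw [h]
  exact MeasurableSet.iInter fun i => (hT.iterate _) (hp _)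

theorem Hn_map {X Y A : Type} [MeasurableSpace X] [MeasurableSpace Y] [Fintype A]
    (μ : Measure X) {T : X → X} {S : Y → Y} (hS : Measurable S) {F : X → Y} (hF : Measurable F)
    (hc : ∀ z, F (T z) = S (F z)) {p : Y → A} (hp : MeasF p) (n : ℕ) :
    Hn (μ.map F) S p n = Hn μ T (fun z => p (F z)) n := by
  unfold Hn
  refine Finset.sum_congr rfl fun w _ => ?_
  rw [Measure.map_apply hF (meas_word hS hp n w)]
  have h : ∀ k z, F (T^[k] z) = S^[k] (F z) := fun k z =>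
    (Function.Semiconj.iterate_right (f := F) (ga := T) (gb := S) hc k) z
  simp only [preimage_setOf_eq, h]

theorem Hn_congr {X A : Type} [MeasurableSpace X] [Fintype A] (μ : Measure X) {T : X → X}
    {p q : X → A} {M : Set X} (hM : μ Mᶜ = 0) (hinv : T ⁻¹' M = M) (h : ∀ z ∈ M, p z = q z)
    (n : ℕ) : Hn μ T p n = Hn μ T q n := by
  unfold Hn
  refine Finset.sum_congr rfl fun w _ => ?_
  have hit : ∀ k, ∀ z ∈ M, T^[k] z ∈ M := by
    intro k
    induction k with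
    | zero => exact fun z hz => hz
    | succ k ih =>
      intro z hz
      rw [Function.iterate_succ_apply']
      have h1 : T^[k] z ∈ T ⁻¹' M := hinv.symm ▸ ih z hz
      exact h1
  have h1 : μ {z | ∀ i : Fin n, p (T^[(i : ℕ)] z) = w i} =
      μ {z | ∀ i : Fin n, q (T^[(i : ℕ)] z) = w i} := by
    refine measure_congr ?_
    have h2 : ∀ᵐ z ∂μ, z ∈ M := hM
    filter_upwards [h2] with z hz
    refine propext ?_
    change (∀ i : Fin n, p (T^[(i : ℕ)] z) = w i) ↔ ∀ i : Fin n, q (T^[(i : ℕ)] z) = w i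
    exact forall_congr' fun i => by rw [h _ (hit _ z hz)]
  rw [h1]

theorem Hn_equiv {X A B : Type} [MeasurableSpace X] [Fintype A] [Fintype B] (μ : Measure X)
    (T : X → X) (q : X → A) (e : A ≃ B) (n : ℕ) :
    Hn μ T (fun z => e (q z)) n = Hn μ T q n := by
  unfold Hn
  refine Fintype.sum_equiv (Equiv.arrowCongr (Equiv.refl (Fin n)) e.symm) _ _ fun w => ?_
  simp only [Equiv.arrowCongr_apply, Equiv.coe_refl, Function.comp, Equiv.refl_symm, id,
    Equiv.apply_eq_iff_eq_symm_apply]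

theorem measF_comp {X Y A : Type} [MeasurableSpace X] [MeasurableSpace Y] {F : X → Y}
    (hF : Measurable F) {p : Y → A} (hp : MeasF p) : MeasF fun z => p (F z) :=
  fun a => hF (hp a)

theorem posEnt_of {X : Type} [MeasurableSpace X] (μ : Measure X) (T : X → X) {h : ℝ} (hh : 0 < h)
    {k : ℕ} {q : X → Fin k} (hq : MeasF q) (hb : ∀ n : ℕ, (n : ℝ) * h ≤ Hn μ T q n) :
    PosEnt T μ := by
  refine ⟨k, fun i => q ⁻¹' {i}, hq, ?_, ?_, h, hh, fun n _ => ?_⟩
  · intro i j hij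
    exact Disjoint.preimage q (disjoint_singleton.2 hij)
  · ext z
    simp
  · have h1 := hb n
    unfold Hn at h1
    rw [mul_comm]
    refine h1.trans (le_of_eq ?_)
    refine Finset.sum_congr rfl fun w _ => ?_
    congr 3
    ext z
    simp

theorem thm_markov : S_loop → S_code → S_markov := by
  classical
  intro hloop hcode X _ T hT z0 hz0 h hh hent μ hμ herg hph A _ q hq hb
  rintro ⟨E, M', X', hM', hX', hTM, hSX, hXE, ⟨ψ, hψ⟩, hμM, hνX⟩
  let Ψ : X → ℤ → ℕ := fun z => if hz : z ∈ M' then (ψ ⟨z, hz⟩ : ℤ → ℕ) else fun _ => 0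
  let Φ : (ℤ → ℕ) → X := fun x => if hx : x ∈ X' then (ψ.symm ⟨x, hx⟩ : X) else z0
  have hΨm : Measurable Ψ :=
    Measurable.dite (measurable_subtype_coe.comp ψ.measurable) measurable_const hM'
  have hΦm : Measurable Φ :=
    Measurable.dite (measurable_subtype_coe.comp ψ.symm.measurable) measurable_const hX'
  have hTM' : ∀ z, T z ∈ M' ↔ z ∈ M' := fun z => by
    change z ∈ T ⁻¹' M' ↔ _
    rw [hTM]
  have hSX' : ∀ x, shift x ∈ X' ↔ x ∈ X' := fun x => by
    change x ∈ shift ⁻¹' X' ↔ _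
    rw [hSX]
  have hΨc : ∀ z, Ψ (T z) = shift (Ψ z) := by
    intro z
    by_cases hz : z ∈ M'
    · simp only [Ψ, dif_pos hz, dif_pos ((hTM' z).2 hz)]
      exact hψ ⟨z, hz⟩ ⟨T z, (hTM' z).2 hz⟩ rfl
    · simp only [Ψ, dif_neg hz, dif_neg (fun h1 => hz ((hTM' z).1 h1))]
      rfl
  have hΦc : ∀ x, Φ (shift x) = T (Φ x) := by
    intro x
    by_cases hx : x ∈ X'
    · simp only [Φ, dif_pos hx, dif_pos ((hSX' x).2 hx)]
      have h1 := hψ (ψ.symm ⟨x, hx⟩) ⟨T (ψ.symm ⟨x, hx⟩ : X), (hTM' _).2 (ψ.symm ⟨x, hx⟩).2⟩ rfl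
      rw [ψ.apply_symm_apply] at h1
      have h2 : ψ ⟨T (ψ.symm ⟨x, hx⟩ : X), (hTM' _).2 (ψ.symm ⟨x, hx⟩).2⟩ =
          ⟨shift x, (hSX' x).2 hx⟩ := Subtype.ext h1
      rw [← h2, ψ.symm_apply_apply]
    · simp only [Φ, dif_neg hx, dif_neg (fun h1 => hx ((hSX' x).1 h1))]
      exact hz0.symm
  have hΦΨ : ∀ z ∈ M', Φ (Ψ z) = z := by
    intro z hz
    simp only [Ψ, Φ, dif_pos hz, dif_pos (ψ ⟨z, hz⟩).2, Subtype.coe_eta, ψ.symm_apply_apply]
  have hΨΦ : ∀ x ∈ X', Ψ (Φ x) = x := by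
    intro x hx
    simp only [Ψ, Φ, dif_pos hx, dif_pos (ψ.symm ⟨x, hx⟩).2, Subtype.coe_eta, ψ.apply_symm_apply]
  let q' : X → Fin (Fintype.card A) := fun z => Fintype.equivFin A (q z)
  have hq' : MeasF q' := by
    intro a
    have h1 : q' ⁻¹' {a} = q ⁻¹' {(Fintype.equivFin A).symm a} := by
      ext z
      simp [q', Equiv.apply_eq_iff_eq_symm_apply]
    rw [h1]
    exact hq _
  have hb' : ∀ n : ℕ, (n : ℝ) * h ≤ Hn μ T q' n := fun n => by
    rw [Hn_equiv μ T q (Fintype.equivFin A) n]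
    exact hb n
  have hM0 : μ M'ᶜ = 0 := hμM μ hμ herg (posEnt_of μ T hh hq' hb')
  have hloop' : LoopBound E h := by
    refine hloop E h hh fun ν hν hνe hνE hνp => ?_
    have h1 := hνX ν hν hνe hνE hνp
    have h2 : ν (PathSet E)ᶜ = 0 := (prob_compl_eq_zero_iff (meas_path E)).2 hνE
    have h3 : ν X'ᶜ = 0 := by
      refine measure_mono_null (t := (PathSet E)ᶜ ∪ (PathSet E \ X')) ?_ (measure_union_null h2 h1)
      intro x hx
      by_cases h4 : x ∈ PathSet E
      · exact Or.inr ⟨h4, hx⟩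
      · exact Or.inl h4
    have h4 : MeasurePreserving T (ν.map Φ) (ν.map Φ) := by
      refine ⟨hT, ?_⟩
      rw [Measure.map_map hT hΦm]
      have h5 : T ∘ Φ = Φ ∘ shift := funext fun x => (hΦc x).symm
      rw [h5, ← Measure.map_map hΦm meas_shift, hνe.toMeasurePreserving.map_eq]
    have h5 := hent (ν.map Φ) (Measure.isProbabilityMeasure_map hΦm.aemeasurable) h4
    intro k p hp ε hε
    filter_upwards [h5 k (fun z => p (Ψ z)) (measF_comp hΨm hp) ε hε] with n hn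
    rw [Hn_map ν hT hΦm hΦc (measF_comp hΨm hp) n,
      Hn_congr ν h3 hSX (q := p) (fun x hx => by rw [hΨΦ x hx]) n] at hn
    exact hn
  have hpres : MeasurePreserving Ψ μ (μ.map Ψ) := ⟨hΨm, rfl⟩
  have herg' : Ergodic shift (μ.map Ψ) :=
    hpres.ergodic_of_ergodic_semiconj herg meas_shift hΨc
  have hprob : IsProbabilityMeasure (μ.map Ψ) := Measure.isProbabilityMeasure_map hΨm.aemeasurable
  have hpath : (μ.map Ψ) (PathSet E) = 1 := by
    rw [← prob_compl_eq_zero_iff (meas_path E), Measure.map_apply hΨm (meas_path E).compl]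
    refine measure_mono_null ?_ hM0
    intro z hz hzM
    refine hz ?_
    simp only [Ψ, dif_pos hzM]
    exact hXE (ψ ⟨z, hzM⟩).2
  have hph' : Phases shift (μ.map Ψ) := by
    intro N
    obtain ⟨Q, hQ, g, hg, hg'⟩ := hph (max N 1)
    have hQ0 : NeZero Q := ⟨by omega⟩
    refine ⟨Q, (le_max_left _ _).trans hQ, fun x => g (Φ x), measF_comp hΦm hg, ?_⟩
    have h1 : MeasurableSet {x : ℤ → ℕ | g (Φ (shift x)) = g (Φ x) + 1} := by
      have h2 : {x : ℤ → ℕ | g (Φ (shift x)) = g (Φ x) + 1} =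
          ⋃ a : ZMod Q, ((fun x => Φ x) ⁻¹' (g ⁻¹' {a})) ∩
            ((fun x => Φ (shift x)) ⁻¹' (g ⁻¹' {a + 1})) := by
        ext x
        simp
      rw [h2]
      exact MeasurableSet.iUnion fun a =>
        (hΦm (hg a)).inter ((hΦm.comp meas_shift) (hg (a + 1)))
    rw [ae_map_iff hΨm.aemeasurable h1]
    have h2 : ∀ᵐ z ∂μ, z ∈ M' := hM0
    filter_upwards [hg', h2] with z hz hzM
    rw [hΦc, hΦΨ z hzM, hz]
  obtain ⟨n, hn⟩ := hcode E h hh hloop' (μ.map Ψ) hprob herg' hpath hph' _ (fun x => q' (Φ x))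
    (measF_comp hΦm hq')
  rw [Hn_map μ meas_shift hΨm hΨc (measF_comp hΦm hq') n,
    Hn_congr μ hM0 hTM (q := q') (fun z hz => by rw [hΦΨ z hz]) n] at hn
  exact absurd (hb' n) (not_le.2 hn)

end Pool.Agent.H529Z.Mk
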